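import Pool.Agent.H8.JS.Targets

/-!
# Row B2: the steps of the machine with counters, other control states
-/

set_option autoImplicit false

namespace Pool.Agent.H35.JS

open Pool.Agent.H69.Sp Pool.Agent.H69.Mt Pool.Agent.H16.TO Pool.Agent.H8.PL Pool.Agent.H8.JS

section
variable {r : ℕ} {T : Type} [Finite T] (U : Bool → Bool → Bool → Bool → T → Prop)
  (Hh Vv : T → T → Prop)

/-- the configuration after a step is determined by the data of the step -/
theorem key (k k' : K5 r T) (D : CC (m5 (r := r) U Hh Vv)) (adv : Bool) (d : Fin 5 → Mv)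
    (a : Option T) (m : Mv) (hi : k'.i = if adv then k.i + 1 else k.i)
    (hc : k'.c = (d 0).go k.c) (hd : k'.d = (d 1).go k.d) (hp : k'.p = (d 2).go k.p)
    (hs : k'.s = (d 3).go k.s) (hy : k'.y = (d 4).go k.y) (hh : k'.h = m.go k.h)
    (hw : ∀ p, k'.w p = if p = k.h then a else k.w p) :
    D = b5 U Hh Vv k' ↔ D.q = k'.q ∧ D.i = (if adv then k.i + 1 else k.i) ∧
      (∀ j : Fin 5, D.n j = (d j).go ((![k.c, k.d, k.p, k.s, k.y] : Fin 5 → ℕ) j)) ∧
      D.h = m.go k.h ∧ ∀ p, D.w p = if p = k.h then a else k.w p := by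
  constructor
  · rintro rfl
    refine ⟨rfl, hi, ?_, hh, hw⟩
    intro j
    fin_cases j
    · exact hc
    · exact hd
    · exact hp
    · exact hs
    · exact hy
  · rintro ⟨h1, h2, h3, h4, h5⟩
    apply CC.ext
    · exact h1
    · rw [h2, ← hi]; rfl
    · funext j
      have := h3 j
      rw [this]
      fin_cases j
      · exact hc.symm
      · exact hd.symm
      · exact hp.symm
      · exact hs.symm
      · exact hy.symm
    · rw [h4, ← hh]; rfl
    · funext p
      rw [h5 p, ← hw p]; rfl

/-- a step for which the transition is a conjunction of equations -/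
theorem det (x : List Bool) (k k' : K5 r T) (D : CC (m5 (r := r) U Hh Vv)) (adv : Bool)
    (d : Fin 5 → Mv) (a : Option T) (m : Mv)
    (hδ : ∀ q' adv' d' a' m', D5 U Hh Vv k.q (x[k.i]?)
      (fun j => decide ((![k.c, k.d, k.p, k.s, k.y] : Fin 5 → ℕ) j = 0)) (k.w k.h) q' adv' d' a' m' ↔
        (q' = k'.q ∧ adv' = adv ∧ d' = d ∧ a' = a ∧ m' = m))
    (hi : k'.i = if adv then k.i + 1 else k.i)
    (hc : k'.c = (d 0).go k.c) (hd : k'.d = (d 1).go k.d) (hp : k'.p = (d 2).go k.p)
    (hs : k'.s = (d 3).go k.s) (hy : k'.y = (d 4).go k.y) (hh : k'.h = m.go k.h)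
    (hw : ∀ p, k'.w p = if p = k.h then a else k.w p) :
    CStep (m5 U Hh Vv) x (b5 U Hh Vv k) D ↔ D = b5 U Hh Vv k' := by
  rw [key U Hh Vv k k' D adv d a m hi hc hd hp hs hy hh hw]
  constructor
  · rintro ⟨adv', d', a', m', h, rest⟩
    obtain ⟨h1, rfl, rfl, rfl, rfl⟩ := (hδ _ _ _ _ _).mp h
    exact ⟨h1, rest⟩
  · rintro ⟨h1, rest⟩
    exact ⟨adv, d, a, m, (hδ _ _ _ _ _).mpr ⟨h1, rfl, rfl, rfl, rfl⟩, rest⟩

end

theorem pf_b2 : J_B2 := by
  intro r T _ U Hh Vv x k D hlo
  have hw0 : ∀ p, k.w p = if p = k.h then k.w k.h else k.w p := by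
    intro p
    split_ifs with hp
    · rw [hp]
    · rfl
  rcases k with ⟨q, i, c, d, p, s, y, h, w⟩
  cases q with
  | ini => exact absurd trivial hlo
  | rd => exact absurd trivial hlo
  | dbl _ => exact absurd trivial hlo
  | db2 _ => exact absurd trivial hlo
  | db3 _ => exact absurd trivial hlo
  | mul _ => exact absurd trivial hlo
  | ad1 _ => exact absurd trivial hlo
  | ad2 _ => exact absurd trivial hlo
  | mv _ => exact absurd trivial hlo
  | cp1 =>
    by_cases hz : p = 0
    · simp only [S5, hz, if_true, exists_eq_left]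
      refine det U Hh Vv x _ _ D false ![.S, .S, .S, .S, .S] (w h) .S ?_ rfl rfl rfl rfl rfl rfl
        rfl hw0
      intro q' adv' d' a' m'
      simp only [D5]
      simp
      tauto
    · simp only [S5, hz, if_false, exists_eq_left]
      refine det U Hh Vv x _ _ D false ![.S, .S, .L, .R, .R] (w h) .S ?_ rfl rfl rfl rfl rfl rfl
        rfl hw0
      intro q' adv' d' a' m'
      simp only [D5]
      simp [hz]
      tauto
  | cp2 =>
    by_cases hz : s = 0
    · simp only [S5, hz, if_true, exists_eq_left]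
      refine det U Hh Vv x _ _ D false ![.S, .S, .S, .S, .S] (w h) .S ?_ rfl rfl rfl rfl rfl rfl
        rfl hw0
      intro q' adv' d' a' m'
      simp only [D5]
      simp
      tauto
    · simp only [S5, hz, if_false, exists_eq_left]
      refine det U Hh Vv x _ _ D false ![.S, .S, .R, .L, .S] (w h) .S ?_ rfl rfl rfl rfl rfl rfl
        rfl hw0
      intro q' adv' d' a' m'
      simp only [D5]
      simp [hz]
      tauto
  | row fr =>
    by_cases hz : y = 0
    · simp only [S5, hz, if_true, exists_eq_left]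
      refine det U Hh Vv x _ _ D false ![.S, .S, .S, .S, .S] (w h) .S ?_ rfl rfl rfl rfl rfl rfl
        rfl hw0
      intro q' adv' d' a' m'
      simp only [D5]
      simp
      tauto
    · simp only [S5, hz, if_false, exists_eq_left]
      refine det U Hh Vv x _ _ D false ![.S, .S, .S, .S, .L] (w h) .S ?_ rfl rfl rfl rfl rfl rfl
        rfl hw0
      intro q' adv' d' a' m'
      simp only [D5]
      simp [hz]
      tauto
  | lst fr =>
    simp only [S5, exists_eq_left]
    refine det U Hh Vv x _ _ D false ![.S, .S, .S, .S, .S] (w h) .S ?_ rfl rfl rfl rfl rfl rfl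
      rfl hw0
    intro q' adv' d' a' m'
    simp only [D5]
    simp
    tauto
  | cel fr lr o =>
    by_cases hz : p = 0
    · simp only [S5, hz, if_true, exists_eq_left]
      refine det U Hh Vv x _ _ D false ![.S, .S, .S, .S, .S] (w h) .S ?_ rfl rfl rfl rfl rfl rfl
        rfl hw0
      intro q' adv' d' a' m'
      simp only [D5]
      simp
      tauto
    · simp only [S5, hz, if_false, exists_eq_left]
      refine det U Hh Vv x _ _ D false ![.S, .S, .L, .R, .S] (w h) .S ?_ rfl rfl rfl rfl rfl rfl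
        rfl hw0
      intro q' adv' d' a' m'
      simp only [D5]
      simp [hz]
      tauto
  | put fr lr o =>
    have hk : ∀ t : T, (D = b5 U Hh Vv ⟨.cel fr lr (some t), i, c, d, p, s, y, h + 1,
        fun p' => if p' = h then some t else w p'⟩ ↔ _) := fun t =>
      key U Hh Vv ⟨.put fr lr o, i, c, d, p, s, y, h, w⟩ ⟨.cel fr lr (some t), i, c, d, p, s, y,
        h + 1, fun p' => if p' = h then some t else w p'⟩ D false ![.S, .S, .S, .S, .S]
        (some t) .R rfl rfl rfl rfl rfl rfl rfl (fun _ => rfl)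
    constructor
    · rintro ⟨adv', d', a', m', hD, rest⟩
      obtain ⟨t, h1, h2, h3, h4, rfl, rfl, rfl, rfl⟩ := hD
      exact ⟨_, ⟨t, h1, h2, h3, rfl⟩, (hk t).mpr ⟨h4, rest⟩⟩
    · rintro ⟨k', ⟨t, h1, h2, h3, rfl⟩, hD⟩
      have hD' := (hk t).mp hD
      exact ⟨false, ![.S, .S, .S, .S, .S], some t, .R,
        ⟨t, h1, h2, h3, hD'.1, rfl, rfl, rfl, rfl⟩, hD'.2⟩
  | bck =>
    by_cases hz : s = 0
    · simp only [S5, hz, if_true, exists_eq_left]
      refine det U Hh Vv x _ _ D false ![.S, .S, .S, .S, .S] (w h) .S ?_ rfl rfl rfl rfl rfl rfl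
        rfl hw0
      intro q' adv' d' a' m'
      simp only [D5]
      simp
      tauto
    · simp only [S5, hz, if_false, exists_eq_left]
      refine det U Hh Vv x _ _ D false ![.S, .S, .R, .L, .S] (w h) .L ?_ rfl rfl rfl rfl rfl rfl
        rfl hw0
      intro q' adv' d' a' m'
      simp only [D5]
      simp [hz]
      tauto
  | acc =>
    constructor
    · rintro ⟨adv', d', a', m', hD, rest⟩
      exact absurd hD id
    · rintro ⟨k', hk, -⟩
      exact absurd hk id

end Pool.Agent.H35.JS
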